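import Pool.Agent.H586.AF.A

/-!
Task AF-A: two one-dimensional heat kernels with the square of the distance.
The lemmas `sumcos`, `sum_Ico`, `sumIcoCos` are taken from the file of helper161 (task AF-P).
-/

set_option autoImplicit false
set_option linter.unusedVariables false

open MeasureTheory Matrix Finset Filter Topology

namespace Pool.Agent.H364.AF

open Pool.Agent.H586.AF

section
attribute [local instance] Matrix.linftyOpNormedRing Matrix.linftyOpNormedAlgebra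

theorem exp_entry_nonneg {n : ℕ} (B : Matrix (Fin n) (Fin n) ℝ) (hB : ∀ i j, 0 ≤ B i j)
    (i j : Fin n) : 0 ≤ (NormedSpace.exp B) i j := by
  have h1 : HasSum (fun k => (k.factorial⁻¹ : ℝ) • B ^ k) (NormedSpace.exp B) :=
    NormedSpace.exp_series_hasSum_exp' (𝕂 := ℝ) B
  have hpow : ∀ k : ℕ, ∀ i j, 0 ≤ (B ^ k) i j := by
    intro k
    induction k with
    | zero =>
      intro i j
      rw [pow_zero, Matrix.one_apply]
      split_ifs <;> norm_num
    | succ k ih =>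
      intro i j
      rw [pow_succ, Matrix.mul_apply]
      exact Finset.sum_nonneg fun l _ => mul_nonneg (ih i l) (hB l j)
  have hc : Continuous fun M : Matrix (Fin n) (Fin n) ℝ => M i j :=
    (continuous_apply j).comp (continuous_apply i)
  have h2 : HasSum (fun k => ((k.factorial⁻¹ : ℝ) • B ^ k) i j) ((NormedSpace.exp B) i j) := by
    let φ : Matrix (Fin n) (Fin n) ℝ →+ ℝ :=
      { toFun := fun M => M i j, map_zero' := rfl, map_add' := fun _ _ => rfl }
    exact h1.map φ hc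
  refine h2.nonneg fun k => ?_
  rw [Matrix.smul_apply, smul_eq_mul]
  exact mul_nonneg (by positivity) (hpow k i j)

end

theorem hk_nonneg {n : ℕ} (A : Matrix (Fin n) (Fin n) ℝ) (c : ℝ)
    (hA : ∀ i j, 0 ≤ (c • (1 : Matrix (Fin n) (Fin n) ℝ) - A) i j) {t : ℝ} (ht : 0 ≤ t)
    (i j : Fin n) : 0 ≤ hk A t i j := by
  have e : (-t) • A = Matrix.diagonal (fun _ => -(c * t)) +
      t • (c • (1 : Matrix (Fin n) (Fin n) ℝ) - A) := by
    ext a b
    by_cases h : a = b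
    · subst h
      simp [Matrix.diagonal_apply, Matrix.one_apply]
      ring
    · simp [Matrix.diagonal_apply, Matrix.one_apply, h]
  have hcom : Commute (Matrix.diagonal (fun _ : Fin n => -(c * t)))
      (t • (c • (1 : Matrix (Fin n) (Fin n) ℝ) - A)) := by
    have : Matrix.diagonal (fun _ : Fin n => -(c * t)) =
        (-(c * t)) • (1 : Matrix (Fin n) (Fin n) ℝ) := by
      ext a b
      by_cases h : a = b
      · subst h; simp [Matrix.diagonal_apply, Matrix.one_apply]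
      · simp [Matrix.diagonal_apply, Matrix.one_apply, h]
    rw [this]
    exact (Commute.one_left _).smul_left _
  unfold hk
  rw [e, Matrix.exp_add_of_commute _ _ hcom, Matrix.exp_diagonal, Matrix.diagonal_mul]
  refine mul_nonneg ?_ ?_
  · have : (NormedSpace.exp fun _ : Fin n => -(c * t)) i = Real.exp (-(c * t)) := by
      rw [Pi.coe_exp, Real.exp_eq_exp_ℝ]
    rw [this]
    exact (Real.exp_pos _).le
  · exact exp_entry_nonneg _ (fun a b => by
      rw [Matrix.smul_apply, smul_eq_mul]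
      exact mul_nonneg ht (hA a b)) i j

theorem hk_symm {n : ℕ} (A : Matrix (Fin n) (Fin n) ℝ) (hA : Aᵀ = A) (t : ℝ) :
    (hk A t)ᵀ = hk A t := by
  unfold hk
  rw [← Matrix.exp_transpose, Matrix.transpose_smul, hA]

theorem hk_add {n : ℕ} (A : Matrix (Fin n) (Fin n) ℝ) (t s : ℝ) :
    hk A (t + s) = hk A t * hk A s := by
  unfold hk
  rw [← Matrix.exp_add_of_commute]
  · congr 1
    rw [neg_add, add_smul]
  · exact ((Commute.refl A).smul_left _).smul_right _

theorem aa_bounds {n L : ℕ} (hn : n ≤ L) (A : Matrix (Fin n) (Fin n) ℝ) (hs : Aᵀ = A) (c : ℝ)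
    (hA : ∀ i j, 0 ≤ (c • (1 : Matrix (Fin n) (Fin n) ℝ) - A) i j) {t s : ℝ} (ht : 0 ≤ t)
    (hs0 : 0 ≤ s) : 0 ≤ aa A t s ∧ aa A t s ≤ (L : ℝ) ^ 2 * cc A (t + s) := by
  have h0 : ∀ x y, 0 ≤ hk A t x y * hk A s x y := fun x y =>
    mul_nonneg (hk_nonneg A c hA ht x y) (hk_nonneg A c hA hs0 x y)
  constructor
  · refine Finset.sum_nonneg fun x _ => Finset.sum_nonneg fun y _ => ?_
    rw [mul_assoc]
    exact mul_nonneg (sq_nonneg _) (h0 x y)
  · have h1 : cc A (t + s) = ∑ x, ∑ y, hk A t x y * hk A s x y := by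
      unfold cc
      rw [hk_add, Matrix.trace]
      refine Finset.sum_congr rfl fun x _ => ?_
      rw [Matrix.diag_apply, Matrix.mul_apply]
      refine Finset.sum_congr rfl fun y _ => ?_
      have : hk A s y x = hk A s x y := by
        conv_lhs => rw [← hk_symm A hs s]
        rfl
      rw [this]
    rw [h1, Finset.mul_sum]
    refine Finset.sum_le_sum fun x _ => ?_
    rw [Finset.mul_sum]
    refine Finset.sum_le_sum fun y _ => ?_
    rw [mul_assoc]
    refine mul_le_mul_of_nonneg_right ?_ (h0 x y)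
    have hx : ((x : ℕ) : ℝ) < L := by exact_mod_cast lt_of_lt_of_le x.2 hn
    have hy : ((y : ℕ) : ℝ) < L := by exact_mod_cast lt_of_lt_of_le y.2 hn
    have hx0 : (0 : ℝ) ≤ ((x : ℕ) : ℝ) := by positivity
    have hy0 : (0 : ℝ) ≤ ((y : ℕ) : ℝ) := by positivity
    nlinarith

theorem lDD_symm (L : ℕ) : (lDD L)ᵀ = lDD L := by
  unfold lDD
  rw [Matrix.transpose_mul, Matrix.transpose_transpose]

theorem lNN_symm (L : ℕ) : (lNN L)ᵀ = lNN L := by
  unfold lNN
  rw [Matrix.transpose_mul, Matrix.transpose_transpose]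

theorem lDD_le (L : ℕ) (i j : Fin (L - 1)) :
    0 ≤ ((2 : ℝ) • (1 : Matrix (Fin (L - 1)) (Fin (L - 1)) ℝ) - lDD L) i j := by
  have hi := i.2
  have hj := j.2
  have e : lDD L i j = ∑ k : Fin L, ((if (i : ℕ) = k then (1 : ℝ) else 0) -
      (if (i : ℕ) + 1 = k then 1 else 0)) * ((if (j : ℕ) = k then 1 else 0) -
      (if (j : ℕ) + 1 = k then 1 else 0)) := rfl
  have s1 : ∀ a b : ℕ, a < L → ∑ k : Fin L, ((if a = (k : ℕ) then (1 : ℝ) else 0) *
      (if b = (k : ℕ) then 1 else 0)) = if a = b then 1 else 0 := by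
    intro a b ha
    rw [Finset.sum_eq_single (⟨a, ha⟩ : Fin L)]
    · simp only [if_true, one_mul]
      by_cases h : a = b
      · rw [if_pos h, if_pos h.symm]
      · rw [if_neg h, if_neg (fun h' => h h'.symm)]
    · intro k _ hk
      have : a ≠ (k : ℕ) := fun h => hk (Fin.ext h.symm)
      rw [if_neg this, zero_mul]
    · intro h
      exact absurd (Finset.mem_univ _) h
  rw [Matrix.sub_apply, Matrix.smul_apply, smul_eq_mul, Matrix.one_apply, e]
  have e2 : ∑ k : Fin L, ((if (i : ℕ) = k then (1 : ℝ) else 0) -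
      (if (i : ℕ) + 1 = k then 1 else 0)) * ((if (j : ℕ) = k then 1 else 0) -
      (if (j : ℕ) + 1 = k then 1 else 0)) =
      (if (i : ℕ) = j then 1 else 0) - (if (i : ℕ) = j + 1 then 1 else 0) -
      (if (i : ℕ) + 1 = j then 1 else 0) + (if (i : ℕ) + 1 = j + 1 then 1 else 0) := by
    rw [← s1 i j (by omega), ← s1 i (j + 1) (by omega), ← s1 (i + 1) j (by omega),
      ← s1 (i + 1) (j + 1) (by omega), ← Finset.sum_sub_distrib, ← Finset.sum_sub_distrib,
      ← Finset.sum_add_distrib]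
    refine Finset.sum_congr rfl fun k _ => ?_
    ring
  rw [e2]
  by_cases h : i = j
  · subst h
    simp
    norm_num
  · have h' : (i : ℕ) ≠ j := fun h'' => h (Fin.ext h'')
    rw [if_neg h, if_neg h', if_neg (by omega : ¬ (i : ℕ) + 1 = j + 1)]
    split_ifs <;> norm_num

theorem lNN_le (L : ℕ) (i j : Fin L) :
    0 ≤ ((2 : ℝ) • (1 : Matrix (Fin L) (Fin L) ℝ) - lNN L) i j := by
  have hi := i.2
  have hj := j.2
  have e : lNN L i j = ∑ k : Fin (L - 1), ((if (k : ℕ) = i then (1 : ℝ) else 0) -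
      (if (k : ℕ) + 1 = i then 1 else 0)) * ((if (k : ℕ) = j then 1 else 0) -
      (if (k : ℕ) + 1 = j then 1 else 0)) := rfl
  have s1 : ∀ (P : Fin (L - 1) → Prop) [DecidablePred P], (∀ a b, P a → P b → a = b) →
      ∑ k : Fin (L - 1), (if P k then (1 : ℝ) else 0) ≤ 1 := by
    intro P _ hP
    rw [Finset.sum_boole]
    have : (Finset.univ.filter P).card ≤ 1 := by
      rw [Finset.card_le_one]
      intro a ha b hb
      exact hP a b (Finset.mem_filter.1 ha).2 (Finset.mem_filter.1 hb).2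
    exact_mod_cast this
  rw [Matrix.sub_apply, Matrix.smul_apply, smul_eq_mul, Matrix.one_apply, e]
  by_cases h : i = j
  · subst h
    rw [if_pos rfl, mul_one, sub_nonneg]
    have e2 : ∀ k : Fin (L - 1), ((if (k : ℕ) = i then (1 : ℝ) else 0) -
      (if (k : ℕ) + 1 = i then 1 else 0)) * ((if (k : ℕ) = i then 1 else 0) -
      (if (k : ℕ) + 1 = i then 1 else 0)) =
        (if (k : ℕ) = i then (1 : ℝ) else 0) + (if (k : ℕ) + 1 = i then 1 else 0) := by
      intro k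
      split_ifs <;> first | omega | norm_num
    rw [Finset.sum_congr rfl (fun k _ => e2 k), Finset.sum_add_distrib]
    have a1 := s1 (fun k => (k : ℕ) = i) (fun a b ha hb => Fin.ext (by omega))
    have a2 := s1 (fun k => (k : ℕ) + 1 = i) (fun a b ha hb => Fin.ext (by omega))
    linarith
  · have h' : (i : ℕ) ≠ j := fun h'' => h (Fin.ext h'')
    rw [if_neg h, mul_zero, zero_sub, ← Finset.sum_neg_distrib]
    refine Finset.sum_nonneg fun k _ => ?_
    split_ifs <;> first | omega | norm_num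


/-- sums of cosines over a period -/
theorem sumcos {L : ℕ} (hL : 0 < L) (k : ℤ) (hk : ¬ (2 * (L : ℤ)) ∣ k) (α : ℝ) :
    ∑ n ∈ Finset.range (2 * L), Real.cos (Real.pi * k * n / L + α) = 0 := by
  have hL' : (L : ℝ) ≠ 0 := by positivity
  set θ : ℝ := Real.pi * k / L with hθ
  have h1 : ∀ n : ℕ, Real.cos (Real.pi * k * n / L + α) * (2 * Real.sin (θ / 2)) =
      Real.sin (θ * ((n + 1 : ℕ) : ℝ) - θ / 2 + α) - Real.sin (θ * (n : ℝ) - θ / 2 + α) := by
    intro n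
    have e1 : Real.pi * k * n / L + α = θ * n + α := by
      rw [hθ]
      ring
    have e2 : θ * ((n + 1 : ℕ) : ℝ) - θ / 2 + α = (θ * n + α) + θ / 2 := by
      push_cast
      ring
    have e3 : θ * (n : ℝ) - θ / 2 + α = (θ * n + α) - θ / 2 := by ring
    rw [e1, e2, e3, Real.sin_add, Real.sin_sub]
    ring
  have h2 : (∑ n ∈ Finset.range (2 * L), Real.cos (Real.pi * k * n / L + α)) *
      (2 * Real.sin (θ / 2)) = 0 := by
    rw [Finset.sum_mul, Finset.sum_congr rfl (fun n _ => h1 n), Finset.sum_range_sub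
      (fun n : ℕ => Real.sin (θ * (n : ℝ) - θ / 2 + α))]
    have e4 : θ * ((2 * L : ℕ) : ℝ) - θ / 2 + α = (-(θ / 2) + α) + (k : ℤ) * (2 * Real.pi) := by
      rw [hθ]
      push_cast
      field_simp
      ring
    have e5 : θ * ((0 : ℕ) : ℝ) - θ / 2 + α = -(θ / 2) + α := by
      push_cast
      ring
    rw [e4, e5, Real.sin_add_int_mul_two_pi, sub_self]
  have h3 : Real.sin (θ / 2) ≠ 0 := by
    intro h
    rw [Real.sin_eq_zero_iff] at h
    obtain ⟨n, hn⟩ := h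
    apply hk
    refine ⟨n, ?_⟩
    rw [hθ] at hn
    have h4 : (n : ℝ) * (2 * L) = k := by
      field_simp at hn
      linarith
    have h6 : n * (2 * (L : ℤ)) = k := by exact_mod_cast h4
    rw [← h6]
    ring
  rcases mul_eq_zero.1 h2 with h | h
  · exact h
  · exact absurd ((mul_eq_zero.1 h).resolve_left two_ne_zero) h3

/-- from the symmetric interval to the range -/
theorem sum_Ico {L : ℕ} (g : ℤ → ℝ) :
    ∑ z ∈ Finset.Ico (-(L : ℤ)) L, g z = ∑ n ∈ Finset.range (2 * L), g ((n : ℤ) - L) := by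
  symm
  refine Finset.sum_nbij' (fun n => (n : ℤ) - L) (fun z => (z + L).toNat) ?_ ?_ ?_ ?_ ?_
  · intro n hn
    rw [Finset.mem_range] at hn
    rw [Finset.mem_Ico]
    constructor <;> omega
  · intro z hz
    rw [Finset.mem_Ico] at hz
    rw [Finset.mem_range]
    omega
  · intro n _
    show (((n : ℤ) - L) + L).toNat = n
    omega
  · intro z hz
    rw [Finset.mem_Ico] at hz
    show (((z + L).toNat : ℕ) : ℤ) - L = z
    omega
  · intro n _
    rfl

theorem sumIcoCos {L : ℕ} (hL : 0 < L) (k : ℤ) :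
    ∑ z ∈ Finset.Ico (-(L : ℤ)) L, Real.cos (Real.pi * k / L * z) =
      if (2 * (L : ℤ)) ∣ k then 2 * (L : ℝ) else 0 := by
  have hL' : (L : ℝ) ≠ 0 := by positivity
  split_ifs with h
  · obtain ⟨m, rfl⟩ := h
    have h1 : ∀ z : ℤ, Real.cos (Real.pi * ((2 * (L : ℤ) * m : ℤ) : ℝ) / L * z) = 1 := by
      intro z
      have e : Real.pi * ((2 * (L : ℤ) * m : ℤ) : ℝ) / L * z = ((m * z : ℤ) : ℝ) * (2 * Real.pi) := by
        push_cast
        field_simp
      rw [e, Real.cos_int_mul_two_pi]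
    rw [Finset.sum_congr rfl (fun z _ => h1 z), Finset.sum_const, Int.card_Ico, nsmul_eq_mul, mul_one]
    have : ((L : ℤ) - (-(L : ℤ))).toNat = 2 * L := by omega
    rw [this]
    push_cast
    ring
  · rw [sum_Ico]
    have h1 := sumcos hL k h (-(Real.pi * k))
    rw [← h1]
    refine Finset.sum_congr rfl fun n _ => ?_
    congr 1
    push_cast
    field_simp
    ring


/-- orthogonality of the half-integer sines on the symmetric period -/
theorem sinsin {L : ℕ} (hL : 2 ≤ L) (n m : ℕ) (hn : n < 2 * L) (hm : m < 2 * L) :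
    ∑ z ∈ Finset.Ico (-(L : ℤ)) L, Real.sin (Real.pi / L * (n + 1 / 2) * z) *
      Real.sin (Real.pi / L * (m + 1 / 2) * z) =
      (if m = n then (L : ℝ) else 0) - (if m = 2 * L - 1 - n then (L : ℝ) else 0) := by
  have hL0 : 0 < L := by omega
  have hL' : (L : ℝ) ≠ 0 := by positivity
  have h1 : ∀ z : ℤ, Real.sin (Real.pi / L * (n + 1 / 2) * z) *
      Real.sin (Real.pi / L * (m + 1 / 2) * z) =
      (1 / 2) * (Real.cos (Real.pi * (((n : ℤ) - m : ℤ) : ℝ) / L * z) -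
        Real.cos (Real.pi * (((n : ℤ) + m + 1 : ℤ) : ℝ) / L * z)) := by
    intro z
    have e1 : Real.pi * (((n : ℤ) - m : ℤ) : ℝ) / L * z =
        Real.pi / L * (n + 1 / 2) * z - Real.pi / L * (m + 1 / 2) * z := by
      push_cast; ring
    have e2 : Real.pi * (((n : ℤ) + m + 1 : ℤ) : ℝ) / L * z =
        Real.pi / L * (n + 1 / 2) * z + Real.pi / L * (m + 1 / 2) * z := by
      push_cast; ring
    rw [e1, e2, Real.cos_sub, Real.cos_add]
    ring
  rw [Finset.sum_congr rfl (fun z _ => h1 z), ← Finset.mul_sum, Finset.sum_sub_distrib,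
    sumIcoCos hL0, sumIcoCos hL0]
  have d1 : (2 * (L : ℤ)) ∣ ((n : ℤ) - m) ↔ m = n := by
    constructor
    · rintro ⟨q, hq⟩
      have hq0 : q = 0 := by
        by_contra hc
        rcases lt_or_gt_of_ne hc with h | h
        · have : q ≤ -1 := by omega
          nlinarith [hq, (by omega : (0 : ℤ) < L), (by omega : (m : ℤ) < 2 * L), (by omega : (0 : ℤ) ≤ n)]
        · have : 1 ≤ q := by omega
          nlinarith [hq, (by omega : (0 : ℤ) < L), (by omega : (n : ℤ) < 2 * L), (by omega : (0 : ℤ) ≤ m)]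
      rw [hq0] at hq
      omega
    · rintro rfl
      simp
  have d2 : (2 * (L : ℤ)) ∣ ((n : ℤ) + m + 1) ↔ m = 2 * L - 1 - n := by
    constructor
    · rintro ⟨q, hq⟩
      have hq1 : q = 1 := by
        have h1 : 0 < q := by
          by_contra hc
          have : q ≤ 0 := by omega
          nlinarith [hq, (by omega : (0 : ℤ) < L), (by omega : (0 : ℤ) ≤ m), (by omega : (0 : ℤ) ≤ n)]
        have h2 : q < 2 := by
          by_contra hc
          have : 2 ≤ q := by omega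
          nlinarith [hq, (by omega : (0 : ℤ) < L), (by omega : (m : ℤ) < 2 * L), (by omega : (n : ℤ) < 2 * L)]
        omega
      rw [hq1] at hq
      omega
    · intro h
      refine ⟨1, ?_⟩
      omega
  by_cases c1 : m = n
  · by_cases c2 : m = 2 * L - 1 - n
    · rw [if_pos (d1.2 c1), if_pos (d2.2 c2), if_pos c1, if_pos c2]; ring
    · rw [if_pos (d1.2 c1), if_neg (fun h => c2 (d2.1 h)), if_pos c1, if_neg c2]; ring
  · by_cases c2 : m = 2 * L - 1 - n
    · rw [if_neg (fun h => c1 (d1.1 h)), if_pos (d2.2 c2), if_neg c1, if_pos c2]; ring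
    · rw [if_neg (fun h => c1 (d1.1 h)), if_neg (fun h => c2 (d2.1 h)), if_neg c1, if_neg c2]; ring

/-- Parseval for the half-integer sines and odd coefficients -/
theorem pars {L : ℕ} (hL : 2 ≤ L) (a b : ℕ → ℝ)
    (hb : ∀ n, n < 2 * L → b (2 * L - 1 - n) = -b n) :
    ∑ z ∈ Finset.Ico (-(L : ℤ)) L,
      (∑ n ∈ Finset.range (2 * L), a n * Real.sin (Real.pi / L * (n + 1 / 2) * z)) *
      (∑ m ∈ Finset.range (2 * L), b m * Real.sin (Real.pi / L * (m + 1 / 2) * z)) =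
      2 * L * ∑ n ∈ Finset.range (2 * L), a n * b n := by
  simp_rw [Finset.sum_mul_sum]
  rw [Finset.sum_comm, Finset.mul_sum]
  refine Finset.sum_congr rfl fun n hn => ?_
  rw [Finset.mem_range] at hn
  rw [Finset.sum_comm]
  have h1 : ∀ m ∈ Finset.range (2 * L), ∑ z ∈ Finset.Ico (-(L : ℤ)) L,
      a n * Real.sin (Real.pi / L * (n + 1 / 2) * z) * (b m * Real.sin (Real.pi / L * (m + 1 / 2) * z)) =
      (if m = n then a n * b m * L else 0) - (if m = 2 * L - 1 - n then a n * b m * L else 0) := by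
    intro m hm
    rw [Finset.mem_range] at hm
    have h2 := sinsin hL n m hn hm
    have h3 : ∑ z ∈ Finset.Ico (-(L : ℤ)) L,
      a n * Real.sin (Real.pi / L * (n + 1 / 2) * z) * (b m * Real.sin (Real.pi / L * (m + 1 / 2) * z)) =
      a n * b m * ∑ z ∈ Finset.Ico (-(L : ℤ)) L, Real.sin (Real.pi / L * (n + 1 / 2) * z) *
        Real.sin (Real.pi / L * (m + 1 / 2) * z) := by
      rw [Finset.mul_sum]
      refine Finset.sum_congr rfl fun z _ => ?_
      ring
    rw [h3, h2]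
    split_ifs <;> ring
  rw [Finset.sum_congr rfl h1, Finset.sum_sub_distrib, Finset.sum_ite_eq', Finset.sum_ite_eq',
    if_pos (Finset.mem_range.2 hn), if_pos (Finset.mem_range.2 (by omega)), hb n hn]
  ring

/-- the values of the symbol -/
noncomputable def rho (L : ℕ) (t : ℝ) (n : ℕ) : ℝ := Real.exp (-t * ek (Real.pi * n / L))

theorem rho_refl {L : ℕ} (hL : 2 ≤ L) (t : ℝ) (n : ℕ) (hn : n ≤ 2 * L) :
    rho L t (2 * L - n) = rho L t n := by
  have hL' : (L : ℝ) ≠ 0 := by positivity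
  unfold rho ek
  have e : Real.pi * ((2 * L - n : ℕ) : ℝ) / L = 2 * Real.pi - Real.pi * n / L := by
    rw [Nat.cast_sub hn]
    push_cast
    field_simp
  rw [e, Real.cos_two_pi_sub]

theorem two_sin_rr {L : ℕ} (hL : 2 ≤ L) (t : ℝ) (z : ℤ) :
    2 * Real.sin (Real.pi * z / (2 * L)) * rr L t z = (1 / (2 * (L : ℝ))) *
      ∑ n ∈ Finset.range (2 * L), (rho L t n - rho L t (n + 1)) *
        Real.sin (Real.pi / L * (n + 1 / 2) * z) := by
  have hL' : (L : ℝ) ≠ 0 := by positivity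
  have h1 : rr L t z = (1 / (2 * (L : ℝ))) * ∑ n ∈ Finset.range (2 * L),
    rho L t n * Real.cos (Real.pi * n / L * z) := rfl
  rw [h1, mul_left_comm, Finset.mul_sum]
  congr 1
  have h2 : ∀ n ∈ Finset.range (2 * L), 2 * Real.sin (Real.pi * z / (2 * L)) *
      (rho L t n * Real.cos (Real.pi * n / L * z)) =
      (rho L t n - rho L t (n + 1)) * Real.sin (Real.pi / L * (n + 1 / 2) * z) +
        (rho L t (n + 1) * Real.sin (Real.pi / L * (((n + 1 : ℕ) : ℝ) - 1 / 2) * z) -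
          rho L t n * Real.sin (Real.pi / L * ((n : ℝ) - 1 / 2) * z)) := by
    intro n _
    have e1 : Real.pi / L * ((n : ℝ) + 1 / 2) * z = Real.pi * n / L * z + Real.pi * z / (2 * L) := by
      field_simp
    have e2 : Real.pi / L * ((n : ℝ) - 1 / 2) * z = Real.pi * n / L * z - Real.pi * z / (2 * L) := by
      field_simp
    have e3 : Real.pi / L * (((n + 1 : ℕ) : ℝ) - 1 / 2) * z = Real.pi / L * ((n : ℝ) + 1 / 2) * z := by
      push_cast; ring
    rw [e3, e2, e1, Real.sin_add, Real.sin_sub]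
    ring
  rw [Finset.sum_congr rfl h2, Finset.sum_add_distrib, Finset.sum_range_sub
    (fun n : ℕ => rho L t n * Real.sin (Real.pi / L * ((n : ℝ) - 1 / 2) * z))]
  have e5 : rho L t (2 * L) = rho L t 0 := by
    have := rho_refl hL t 0 (by omega)
    rwa [Nat.sub_zero] at this
  have e6 : Real.pi / L * (((2 * L : ℕ) : ℝ) - 1 / 2) * z =
      Real.pi / L * (((0 : ℕ) : ℝ) - 1 / 2) * z + (z : ℤ) * (2 * Real.pi) := by
    push_cast
    field_simp
    ring
  rw [e5, e6, Real.sin_add_int_mul_two_pi, sub_self, add_zero]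

/-- the main sum in momentum space -/
theorem parsRR {L : ℕ} (hL : 2 ≤ L) (t s : ℝ) :
    ∑ z ∈ Finset.Ico (-(L : ℤ)) L, (2 - 2 * Real.cos (Real.pi * z / L)) * (rr L t z * rr L s z) =
      (1 / (L : ℝ)) * ∑ n ∈ Finset.range L, (rho L t n - rho L t (n + 1)) *
        (rho L s n - rho L s (n + 1)) := by
  have hL' : (L : ℝ) ≠ 0 := by positivity
  have h1 : ∀ z ∈ Finset.Ico (-(L : ℤ)) L,
      (2 - 2 * Real.cos (Real.pi * z / L)) * (rr L t z * rr L s z) =
      (1 / (2 * (L : ℝ))) ^ 2 * ((∑ n ∈ Finset.range (2 * L), (rho L t n - rho L t (n + 1)) *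
        Real.sin (Real.pi / L * (n + 1 / 2) * z)) *
        (∑ m ∈ Finset.range (2 * L), (rho L s m - rho L s (m + 1)) *
        Real.sin (Real.pi / L * (m + 1 / 2) * z))) := by
    intro z _
    have e1 : (2 - 2 * Real.cos (Real.pi * z / L)) = (2 * Real.sin (Real.pi * z / (2 * L))) ^ 2 := by
      have e2 : Real.pi * z / L = 2 * (Real.pi * z / (2 * L)) := by
        field_simp
      rw [e2, Real.cos_two_mul']
      nlinarith [Real.sin_sq_add_cos_sq (Real.pi * z / (2 * L))]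
    have e3 := two_sin_rr hL t z
    have e4 := two_sin_rr hL s z
    calc _ = (2 * Real.sin (Real.pi * z / (2 * L)) * rr L t z) *
        (2 * Real.sin (Real.pi * z / (2 * L)) * rr L s z) := by rw [e1]; ring
      _ = _ := by rw [e3, e4]; ring
  rw [Finset.sum_congr rfl h1, ← Finset.mul_sum, pars hL]
  · have h2 : ∑ n ∈ Finset.range (2 * L), (rho L t n - rho L t (n + 1)) *
        (rho L s n - rho L s (n + 1)) = 2 * ∑ n ∈ Finset.range L, (rho L t n - rho L t (n + 1)) *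
        (rho L s n - rho L s (n + 1)) := by
      rw [two_mul L, Finset.sum_range_add, two_mul]
      congr 1
      rw [← Finset.sum_range_reflect]
      refine Finset.sum_congr rfl fun n hn => ?_
      rw [Finset.mem_range] at hn
      have f1 : ∀ t : ℝ, rho L t (L + (L - 1 - n)) = rho L t (n + 1) := by
        intro t
        rw [← rho_refl hL t (n + 1) (by omega)]
        congr 1
        omega
      have f2 : ∀ t : ℝ, rho L t (L + (L - 1 - n) + 1) = rho L t n := by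
        intro t
        rw [← rho_refl hL t n (by omega)]
        congr 1
        omega
      rw [f1, f1, f2, f2]
      ring
    rw [h2]
    field_simp
  · intro n hn
    have f1 : rho L s (2 * L - 1 - n) = rho L s (n + 1) := by
      rw [← rho_refl hL s (n + 1) (by omega)]
      congr 1
      omega
    have f2 : rho L s (2 * L - 1 - n + 1) = rho L s n := by
      rw [← rho_refl hL s n (by omega)]
      congr 1
      omega
    rw [f1, f2]
    ring


/-- derivative of `exp (-t ek k)` -/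
noncomputable def Fd (t k : ℝ) : ℝ := -(2 * t * Real.sin k) * Real.exp (-t * ek k)

/-- second derivative -/
noncomputable def Fdd (t k : ℝ) : ℝ :=
  (-(2 * t * Real.cos k) + 4 * t ^ 2 * Real.sin k ^ 2) * Real.exp (-t * ek k)

theorem has_ek (k : ℝ) : HasDerivAt ek (2 * Real.sin k) k := by
  have h := ((Real.hasDerivAt_cos k).const_mul 2).const_sub 2
  have e : (2 * Real.sin k) = -(2 * -Real.sin k) := by ring
  rw [e]
  exact h

theorem has_f (t k : ℝ) : HasDerivAt (fun x => Real.exp (-t * ek x)) (Fd t k) k := by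
  have h := ((has_ek k).const_mul (-t)).exp
  have e : Fd t k = Real.exp (-t * ek k) * (-t * (2 * Real.sin k)) := by
    unfold Fd; ring
  rw [e]
  exact h

theorem has_Fd (t k : ℝ) : HasDerivAt (Fd t) (Fdd t k) k := by
  have h := (((Real.hasDerivAt_sin k).const_mul (2 * t)).neg).mul (has_f t k)
  have e : Fdd t k = -(2 * t * Real.cos k) * Real.exp (-t * ek k) +
      -(2 * t * Real.sin k) * Fd t k := by
    unfold Fd Fdd; ring
  rw [e]
  exact h

theorem cont_ek : Continuous ek := by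
  unfold ek; fun_prop

theorem cont_Fd (t : ℝ) : Continuous (Fd t) := by
  have := cont_ek
  unfold Fd; fun_prop

theorem cont_Fdd (t : ℝ) : Continuous (Fdd t) := by
  have := cont_ek
  unfold Fdd; fun_prop

/-- one cell -/
theorem cell {a b K V : ℝ} (hab : a ≤ b) (F G G' : ℝ → ℝ) (hF : Continuous F)
    (hG' : Continuous G') (hG : ∀ x, HasDerivAt G (G' x) x) (hK : ∀ x ∈ Set.Icc a b, |F x| ≤ K)
    (hV : V = ∫ x in a..b, |G' x|) :
    |(∫ x in a..b, F x) * (∫ x in a..b, G x) - (b - a) * ∫ x in a..b, F x * G x| ≤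
      K * (b - a) ^ 2 * V := by
  have hGc : Continuous G := continuous_iff_continuousAt.2 fun x => (hG x).continuousAt
  have hV0 : 0 ≤ V := by
    rw [hV]
    exact intervalIntegral.integral_nonneg hab fun x _ => abs_nonneg _
  have hosc : ∀ x ∈ Set.Icc a b, ∀ y ∈ Set.Icc a b, |G y - G x| ≤ V := by
    intro x hx y hy
    rw [← intervalIntegral.integral_eq_sub_of_hasDerivAt (fun z _ => hG z)
      (hG'.intervalIntegrable _ _)]
    have h1 : |∫ z in x..y, G' z| ≤ abs (∫ z in x..y, abs (G' z)) := by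
      have h := intervalIntegral.norm_integral_le_abs_integral_norm (f := G') (a := x) (b := y)
        (μ := volume)
      simpa only [Real.norm_eq_abs] using h
    refine h1.trans ?_
    have h4 : abs (∫ z in x..y, abs (G' z)) ≤ abs (∫ z in a..b, abs (G' z)) := by
      refine intervalIntegral.abs_integral_mono_interval ?_ ?_ (hG'.abs.intervalIntegrable _ _)
      · rw [Set.uIoc_of_le hab]
        intro z hz
        rcases le_total x y with h | h
        · rw [Set.uIoc_of_le h] at hz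
          exact ⟨lt_of_le_of_lt hx.1 hz.1, hz.2.trans hy.2⟩
        · rw [Set.uIoc_comm, Set.uIoc_of_le h] at hz
          exact ⟨lt_of_le_of_lt hy.1 hz.1, hz.2.trans hx.2⟩
      · exact Filter.Eventually.of_forall fun z => abs_nonneg _
    refine h4.trans ?_
    rw [← hV, abs_of_nonneg hV0]
  have h2 : ∀ x ∈ Set.Icc a b, |(∫ y in a..b, G y) - (b - a) * G x| ≤ V * (b - a) := by
    intro x hx
    have e : (∫ y in a..b, G y) - (b - a) * G x = ∫ y in a..b, (G y - G x) := by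
      rw [intervalIntegral.integral_sub (hGc.intervalIntegrable _ _)
        (continuous_const.intervalIntegrable _ _), intervalIntegral.integral_const, smul_eq_mul]
    rw [e]
    have h3 := intervalIntegral.norm_integral_le_of_norm_le_const (a := a) (b := b)
      (f := fun y => G y - G x) (C := V) ?_
    · rw [abs_of_nonneg (sub_nonneg.2 hab)] at h3
      exact h3
    · intro y hy
      rw [Set.uIoc_of_le hab] at hy
      exact hosc x hx y ⟨hy.1.le, hy.2⟩
  have e : (∫ x in a..b, F x) * (∫ x in a..b, G x) - (b - a) * ∫ x in a..b, F x * G x =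
      ∫ x in a..b, F x * ((∫ y in a..b, G y) - (b - a) * G x) := by
    have e1 : (fun x => F x * ((∫ y in a..b, G y) - (b - a) * G x)) =
        fun x => (∫ y in a..b, G y) * F x - (b - a) * (F x * G x) := by
      funext x; ring
    rw [e1, intervalIntegral.integral_sub, intervalIntegral.integral_const_mul,
      intervalIntegral.integral_const_mul]
    · ring
    · exact (continuous_const.mul hF).intervalIntegrable _ _
    · exact (continuous_const.mul (hF.mul hGc)).intervalIntegrable _ _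
  rw [e]
  have h3 := intervalIntegral.norm_integral_le_of_norm_le_const (a := a) (b := b)
      (f := fun x => F x * ((∫ y in a..b, G y) - (b - a) * G x)) (C := K * (V * (b - a))) ?_
  · rw [abs_of_nonneg (sub_nonneg.2 hab)] at h3
    refine (le_of_eq rfl).trans (h3.trans (le_of_eq ?_))
    ring
  · intro x hx
    rw [Set.uIoc_of_le hab] at hx
    have hx' : x ∈ Set.Icc a b := ⟨hx.1.le, hx.2⟩
    rw [Real.norm_eq_abs, abs_mul]
    exact mul_le_mul (hK x hx') (h2 x hx') (abs_nonneg _) ((abs_nonneg _).trans (hK x hx'))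

/-- the total variation of `F` -/
theorem tvF {t : ℝ} (ht : 0 ≤ t) :
    ∫ x in (0 : ℝ)..Real.pi, |Fdd t x| ≤ 80 * Real.sqrt t := by
  have hpi := Real.pi_pos
  rcases ht.eq_or_lt with h0 | h0
  · rw [← h0]
    have : ∀ x, |Fdd 0 x| = 0 := by
      intro x; unfold Fdd; simp
    simp [this]
  have hb : (0 : ℝ) < 2 / Real.pi ^ 2 * t := by positivity
  have h1 : ∀ x ∈ Set.Icc (0 : ℝ) Real.pi, |Fdd t x| ≤
      2 * Real.pi ^ 2 * t * Real.exp (-(2 / Real.pi ^ 2 * t) * x ^ 2) := by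
    intro x hx
    have hx1 : |x| ≤ Real.pi := by rw [abs_of_nonneg hx.1]; exact hx.2
    have hc := Real.cos_le_one_sub_mul_cos_sq hx1
    have hek : 4 / Real.pi ^ 2 * x ^ 2 ≤ ek x := by
      unfold ek
      have : 4 / Real.pi ^ 2 * x ^ 2 = 2 * (2 / Real.pi ^ 2 * x ^ 2) := by ring
      rw [this]
      linarith
    have hs : Real.sin x ^ 2 ≤ x ^ 2 := by
      have h1 := Real.sin_le hx.1
      have h2 := Real.sin_nonneg_of_nonneg_of_le_pi hx.1 hx.2
      nlinarith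
    unfold Fdd
    rw [abs_mul, abs_of_pos (Real.exp_pos _)]
    have h2 : |-(2 * t * Real.cos x) + 4 * t ^ 2 * Real.sin x ^ 2| ≤ 2 * t + 4 * t ^ 2 * x ^ 2 := by
      refine (abs_add_le _ _).trans ?_
      rw [abs_neg, abs_mul, abs_of_nonneg (by positivity : (0 : ℝ) ≤ 2 * t),
        abs_of_nonneg (by positivity : (0 : ℝ) ≤ 4 * t ^ 2 * Real.sin x ^ 2)]
      have h3 := Real.abs_cos_le_one x
      have h4 : 2 * t * |Real.cos x| ≤ 2 * t * 1 := mul_le_mul_of_nonneg_left h3 (by positivity)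
      have h5 : 4 * t ^ 2 * Real.sin x ^ 2 ≤ 4 * t ^ 2 * x ^ 2 :=
        mul_le_mul_of_nonneg_left hs (by positivity)
      linarith
    have hpi1 : 1 ≤ Real.pi ^ 2 := by nlinarith [Real.pi_gt_three]
    have h3 : 2 * t + 4 * t ^ 2 * x ^ 2 ≤
        2 * Real.pi ^ 2 * t * Real.exp (2 / Real.pi ^ 2 * t * x ^ 2) := by
      have h4 := Real.add_one_le_exp (2 / Real.pi ^ 2 * t * x ^ 2)
      have h5 : 2 * Real.pi ^ 2 * t * (2 / Real.pi ^ 2 * t * x ^ 2 + 1) ≤
          2 * Real.pi ^ 2 * t * Real.exp (2 / Real.pi ^ 2 * t * x ^ 2) :=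
        mul_le_mul_of_nonneg_left h4 (by positivity)
      refine le_trans ?_ h5
      have h6 : 2 * Real.pi ^ 2 * t * (2 / Real.pi ^ 2 * t * x ^ 2 + 1) =
          4 * t ^ 2 * x ^ 2 + 2 * t * Real.pi ^ 2 := by
        field_simp
        ring
      rw [h6]
      nlinarith
    calc _ ≤ (2 * Real.pi ^ 2 * t * Real.exp (2 / Real.pi ^ 2 * t * x ^ 2)) *
          Real.exp (-(t * (4 / Real.pi ^ 2 * x ^ 2))) := by
          refine mul_le_mul (h2.trans h3) ?_ (Real.exp_pos _).le (by positivity)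
          apply Real.exp_le_exp.2
          have := mul_le_mul_of_nonneg_left hek ht
          linarith
      _ = _ := by
          rw [mul_assoc, ← Real.exp_add]
          congr 2
          ring
  have h2 : ∫ x in (0 : ℝ)..Real.pi, |Fdd t x| ≤
      ∫ x in (0 : ℝ)..Real.pi, 2 * Real.pi ^ 2 * t * Real.exp (-(2 / Real.pi ^ 2 * t) * x ^ 2) := by
    refine intervalIntegral.integral_mono_on hpi.le ((cont_Fdd t).abs.intervalIntegrable _ _)
      (Continuous.intervalIntegrable (by fun_prop) _ _) h1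
  refine h2.trans ?_
  rw [intervalIntegral.integral_const_mul, intervalIntegral.integral_of_le hpi.le]
  have h3 : ∫ x in Set.Ioc (0 : ℝ) Real.pi, Real.exp (-(2 / Real.pi ^ 2 * t) * x ^ 2) ≤
      Real.sqrt (Real.pi / (2 / Real.pi ^ 2 * t)) := by
    rw [← integral_gaussian]
    exact setIntegral_le_integral (integrable_exp_neg_mul_sq hb)
      (Filter.Eventually.of_forall fun x => (Real.exp_pos _).le)
  have h4 : Real.sqrt (Real.pi / (2 / Real.pi ^ 2 * t)) * t ≤ 4 * Real.sqrt t := by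
    have e : Real.sqrt (Real.pi / (2 / Real.pi ^ 2 * t)) = Real.sqrt (Real.pi ^ 3 / 2) / Real.sqrt t := by
      rw [← Real.sqrt_div (by positivity)]
      congr 1
      field_simp
    rw [e]
    have h5 : Real.sqrt (Real.pi ^ 3 / 2) ≤ 4 := by
      rw [Real.sqrt_le_left (by norm_num)]
      have := Real.pi_lt_d2
      have h6 : Real.pi ^ 3 ≤ 3.15 ^ 3 := pow_le_pow_left₀ hpi.le this.le 3
      norm_num at h6 ⊢
      linarith
    have hst : 0 < Real.sqrt t := Real.sqrt_pos.2 h0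
    have h7 : t = Real.sqrt t * Real.sqrt t := (Real.mul_self_sqrt ht).symm
    calc Real.sqrt (Real.pi ^ 3 / 2) / Real.sqrt t * t =
          Real.sqrt (Real.pi ^ 3 / 2) / Real.sqrt t * (Real.sqrt t * Real.sqrt t) := by rw [← h7]
      _ = Real.sqrt (Real.pi ^ 3 / 2) * Real.sqrt t := by field_simp
      _ ≤ 4 * Real.sqrt t := mul_le_mul_of_nonneg_right h5 hst.le
  have h8 : 2 * Real.pi ^ 2 ≤ 20 := by
    have := Real.pi_lt_d2
    nlinarith [Real.pi_gt_three]
  have h9 : 0 ≤ Real.sqrt (Real.pi / (2 / Real.pi ^ 2 * t)) * t := by positivity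
  calc _ ≤ 2 * Real.pi ^ 2 * t * Real.sqrt (Real.pi / (2 / Real.pi ^ 2 * t)) :=
        mul_le_mul_of_nonneg_left h3 (by positivity)
    _ = 2 * Real.pi ^ 2 * (Real.sqrt (Real.pi / (2 / Real.pi ^ 2 * t)) * t) := by ring
    _ ≤ 20 * (Real.sqrt (Real.pi / (2 / Real.pi ^ 2 * t)) * t) :=
        mul_le_mul_of_nonneg_right h8 h9
    _ ≤ 20 * (4 * Real.sqrt t) := mul_le_mul_of_nonneg_left h4 (by norm_num)
    _ = _ := by ring

theorem supF {t : ℝ} (ht : 0 ≤ t) (x : ℝ) (hx : x ∈ Set.Icc 0 Real.pi) :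
    |Fd t x| ≤ 80 * Real.sqrt t := by
  have h0 : Fd t 0 = 0 := by unfold Fd; simp
  have h1 : Fd t x = ∫ y in (0 : ℝ)..x, Fdd t y := by
    rw [intervalIntegral.integral_eq_sub_of_hasDerivAt (fun z _ => has_Fd t z)
      ((cont_Fdd t).intervalIntegrable _ _), h0, sub_zero]
  rw [h1]
  refine (intervalIntegral.abs_integral_le_integral_abs hx.1).trans ?_
  refine le_trans ?_ (tvF ht)
  exact intervalIntegral.integral_mono_interval le_rfl hx.1 hx.2
    (Filter.Eventually.of_forall fun x => abs_nonneg _) ((cont_Fdd t).abs.intervalIntegrable _ _)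

/-- comparison of the sum over the cells with the integral -/
theorem cells {L : ℕ} (hL : 2 ≤ L) {t s : ℝ} (ht : 0 ≤ t) (hs : 0 ≤ s) :
    |∑ n ∈ Finset.range L,
      (Real.exp (-t * ek (Real.pi * n / L)) - Real.exp (-t * ek (Real.pi * ((n + 1 : ℕ) : ℝ) / L))) *
      (Real.exp (-s * ek (Real.pi * n / L)) - Real.exp (-s * ek (Real.pi * ((n + 1 : ℕ) : ℝ) / L))) -
      Real.pi / L * ∫ x in (0 : ℝ)..Real.pi, Fd t x * Fd s x| ≤
      (Real.pi / L) ^ 2 * (6400 * (Real.sqrt t * Real.sqrt s)) := by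
  have hpi := Real.pi_pos
  have hL' : (0 : ℝ) < L := by positivity
  set x : ℕ → ℝ := fun n => Real.pi * n / L with hx
  have hxs : ∀ n : ℕ, x (n + 1) - x n = Real.pi / L := by
    intro n
    simp only [hx]
    push_cast
    field_simp
    ring
  have hx0 : x 0 = 0 := by simp [hx]
  have hxL : x L = Real.pi := by simp only [hx]; field_simp
  have hmono : ∀ n, x n ≤ x (n + 1) := by
    intro n
    have := hxs n
    have h2 : 0 < Real.pi / L := by positivity
    linarith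
  have hint : ∀ (f : ℝ → ℝ), Continuous f → ∫ y in (0 : ℝ)..Real.pi, f y =
      ∑ n ∈ Finset.range L, ∫ y in x n..x (n + 1), f y := by
    intro f hf
    rw [intervalIntegral.sum_integral_adjacent_intervals (fun n _ => hf.intervalIntegrable _ _),
      hx0, hxL]
  have hcell : ∀ n ∈ Finset.range L,
      |(Real.exp (-t * ek (x n)) - Real.exp (-t * ek (x (n + 1)))) *
      (Real.exp (-s * ek (x n)) - Real.exp (-s * ek (x (n + 1)))) -
      Real.pi / L * ∫ y in x n..x (n + 1), Fd t y * Fd s y| ≤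
      80 * Real.sqrt t * (Real.pi / L) ^ 2 * ∫ y in x n..x (n + 1), |Fdd s y| := by
    intro n hn
    rw [Finset.mem_range] at hn
    have i1 : ∀ t : ℝ, ∫ y in x n..x (n + 1), Fd t y =
        Real.exp (-t * ek (x (n + 1))) - Real.exp (-t * ek (x n)) := fun t =>
      intervalIntegral.integral_eq_sub_of_hasDerivAt (fun z _ => has_f t z)
        ((cont_Fd t).intervalIntegrable _ _)
    have c := cell (hmono n) (Fd t) (Fd s) (Fdd s) (cont_Fd t) (cont_Fdd s) (has_Fd s)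
      (K := 80 * Real.sqrt t) ?_ rfl
    · rw [hxs, i1, i1] at c
      have e : (Real.exp (-t * ek (x n)) - Real.exp (-t * ek (x (n + 1)))) *
          (Real.exp (-s * ek (x n)) - Real.exp (-s * ek (x (n + 1)))) =
          (Real.exp (-t * ek (x (n + 1))) - Real.exp (-t * ek (x n))) *
          (Real.exp (-s * ek (x (n + 1))) - Real.exp (-s * ek (x n))) := by ring
      rw [e]
      exact c
    · intro y hy
      apply supF ht
      constructor
      · refine le_trans ?_ hy.1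
        simp only [hx]
        positivity
      · refine hy.2.trans ?_
        rw [← hxL]
        simp only [hx]
        have : ((n + 1 : ℕ) : ℝ) ≤ L := by exact_mod_cast hn
        gcongr
  rw [hint (fun x => Fd t x * Fd s x) ((cont_Fd t).mul (cont_Fd s)), Finset.mul_sum, ← Finset.sum_sub_distrib]
  refine (Finset.abs_sum_le_sum_abs _ _).trans ((Finset.sum_le_sum hcell).trans ?_)
  rw [← Finset.mul_sum, ← hint _ (cont_Fdd s).abs]
  calc _ ≤ 80 * Real.sqrt t * (Real.pi / L) ^ 2 * (80 * Real.sqrt s) :=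
        mul_le_mul_of_nonneg_left (tvF hs) (by positivity)
    _ = _ := by ring

/-- the integral -/
theorem intww (t s : ℝ) : ∫ x in (0 : ℝ)..Real.pi, Fd t x * Fd s x =
    Real.pi * (t * s * ww (t + s)) := by
  have e : (fun x => Fd t x * Fd s x) = fun x => (t * s) * (4 * Real.sin x ^ 2 *
      Real.exp (-(t + s) * ek x)) := by
    funext x
    unfold Fd
    have : Real.exp (-(t + s) * ek x) = Real.exp (-t * ek x) * Real.exp (-s * ek x) := by
      rw [← Real.exp_add]; congr 1; ring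
    rw [this]
    ring
  rw [e, intervalIntegral.integral_const_mul]
  unfold ww
  have := Real.pi_pos.ne'
  field_simp


/-- the symmetric period -/
noncomputable abbrev BB (L : ℕ) : Finset ℤ := Finset.Ico (-(L : ℤ)) L

/-- double sums over `Fin n` as integer sums -/
theorem fin_int {n : ℕ} (F : ℤ → ℤ → ℝ) :
    ∑ i : Fin n, ∑ j : Fin n, F ((i : ℕ) : ℤ) ((j : ℕ) : ℤ) =
      ∑ i ∈ Finset.Ico (0 : ℤ) n, ∑ j ∈ Finset.Ico (0 : ℤ) n, F i j := by
  have h : ∀ G : ℤ → ℝ, ∑ i : Fin n, G ((i : ℕ) : ℤ) = ∑ i ∈ Finset.Ico (0 : ℤ) n, G i := by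
    intro G
    rw [Fin.sum_univ_eq_sum_range (fun i : ℕ => G (i : ℤ))]
    refine Finset.sum_nbij' (fun i : ℕ => (i : ℤ)) (fun z : ℤ => z.toNat) ?_ ?_ ?_ ?_ ?_
    · intro i hi
      rw [Finset.mem_range] at hi
      rw [Finset.mem_Ico]
      constructor <;> omega
    · intro z hz
      rw [Finset.mem_Ico] at hz
      rw [Finset.mem_range]
      omega
    · intro i _
      show ((i : ℤ)).toNat = i
      omega
    · intro z hz
      rw [Finset.mem_Ico] at hz
      show ((z.toNat : ℕ) : ℤ) = z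
      omega
    · intro i _
      rfl
  rw [h (fun i => ∑ j : Fin n, F i ((j : ℕ) : ℤ))]
  exact Finset.sum_congr rfl fun i _ => h (fun j => F i j)

/-- the sum over the differences -/
theorem diff_sum {n L : ℕ} (h1 : n ≤ L) (h2 : L ≤ n + 1) (h : ℤ → ℝ) (hh : ∀ z, 0 ≤ h z) :
    |(∑ i ∈ Finset.Ico (0 : ℤ) n, ∑ j ∈ Finset.Ico (0 : ℤ) n, h (i - j)) -
      L * ∑ z ∈ BB L, h z| ≤ ∑ z ∈ BB L, (1 + |(z : ℝ)|) * h z := by
  have e1 : ∀ i ∈ Finset.Ico (0 : ℤ) n, ∑ j ∈ Finset.Ico (0 : ℤ) n, h (i - j) =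
      ∑ z ∈ BB L, if (0 ≤ i - z ∧ i - z < n) then h z else 0 := by
    intro i hi
    rw [Finset.mem_Ico] at hi
    rw [← Finset.sum_filter]
    refine Finset.sum_nbij' (fun j => i - j) (fun z => i - z) ?_ ?_ ?_ ?_ ?_
    · intro j hj
      rw [Finset.mem_Ico] at hj
      rw [Finset.mem_filter, Finset.mem_Ico]
      refine ⟨⟨?_, ?_⟩, ?_, ?_⟩ <;> omega
    · intro z hz
      rw [Finset.mem_filter, Finset.mem_Ico] at hz
      rw [Finset.mem_Ico]
      exact hz.2
    · intro j _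
      show i - (i - j) = j
      omega
    · intro j _
      show i - (i - j) = j
      omega
    · intro j _
      rfl
  rw [Finset.sum_congr rfl e1, Finset.sum_comm, Finset.mul_sum, ← Finset.sum_sub_distrib]
  refine (Finset.abs_sum_le_sum_abs _ _).trans (Finset.sum_le_sum fun z hz => ?_)
  rw [Finset.mem_Ico] at hz
  have e2 : ∑ i ∈ Finset.Ico (0 : ℤ) n, (if (0 ≤ i - z ∧ i - z < n) then h z else 0) =
      (((min (n : ℤ) (n + z)) - max 0 z).toNat : ℝ) * h z := by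
    rw [← Finset.sum_filter, Finset.sum_const, nsmul_eq_mul]
    congr 2
    have : Finset.filter (fun i => 0 ≤ i - z ∧ i - z < n) (Finset.Ico (0 : ℤ) n) =
        Finset.Ico (max 0 z) (min (n : ℤ) (n + z)) := by
      ext i
      rw [Finset.mem_filter, Finset.mem_Ico, Finset.mem_Ico]
      constructor
      · intro h; constructor <;> omega
      · intro h; refine ⟨⟨?_, ?_⟩, ?_, ?_⟩ <;> omega
    rw [this, Int.card_Ico]
  rw [e2, ← sub_mul, abs_mul, abs_of_nonneg (hh z)]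
  refine mul_le_mul_of_nonneg_right ?_ (hh z)
  have h3 : |((((min (n : ℤ) (n + z)) - max 0 z).toNat : ℤ)) - (L : ℤ)| ≤ 1 + |z| := by
    rw [abs_le]
    rcases abs_cases z with ⟨h, h'⟩ | ⟨h, h'⟩
    · rw [h]
      constructor <;> omega
    · rw [h]
      constructor <;> omega
  have h4 : ((|((((min (n : ℤ) (n + z)) - max 0 z).toNat : ℤ)) - (L : ℤ)| : ℤ) : ℝ) ≤
      ((1 + |z| : ℤ) : ℝ) := Int.cast_le.2 h3
  rw [Int.cast_abs, Int.cast_sub, Int.cast_natCast, Int.cast_natCast, Int.cast_add, Int.cast_one,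
    Int.cast_abs] at h4
  exact h4

/-- the representative of `i + j + o` -/
def wrp (L o : ℕ) (i j : ℤ) : ℤ := if i + j + o < L then i + j + o else i + j + o - 2 * L

/-- the sum over the pairs (difference, sum) -/
theorem pair_sum {n L o : ℕ} (hno : n + o = L + 1) (ho : 1 ≤ o) (G : ℤ → ℤ → ℝ)
    (hG : ∀ a b, 0 ≤ G a b) :
    ∑ i ∈ Finset.Ico (0 : ℤ) n, ∑ j ∈ Finset.Ico (0 : ℤ) n, G (i - j) (wrp L o i j) ≤
      ∑ v ∈ BB L, ∑ w ∈ BB L, if |v| ≤ |w| then G v w else 0 := by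
  rw [← Finset.sum_product', ← Finset.sum_product', ← Finset.sum_filter]
  have hinj : Set.InjOn (fun p : ℤ × ℤ => (p.1 - p.2, wrp L o p.1 p.2))
      ((Finset.Ico (0 : ℤ) n ×ˢ Finset.Ico (0 : ℤ) n : Finset (ℤ × ℤ)) : Set (ℤ × ℤ)) := by
    rintro ⟨a, b⟩ hab ⟨c, d⟩ hcd h
    rw [Finset.mem_coe, Finset.mem_product, Finset.mem_Ico, Finset.mem_Ico] at hab hcd
    simp only [wrp, Prod.mk.injEq] at h hab hcd
    obtain ⟨h1, h2⟩ := h
    obtain ⟨⟨a1, a2⟩, a3, a4⟩ := hab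
    obtain ⟨⟨c1, c2⟩, c3, c4⟩ := hcd
    have : a = c ∧ b = d := by
      split_ifs at h2 <;> omega
    rw [this.1, this.2]
  have e1 : ∑ p ∈ Finset.Ico (0 : ℤ) n ×ˢ Finset.Ico (0 : ℤ) n, G (p.1 - p.2) (wrp L o p.1 p.2) =
      ∑ q ∈ (Finset.Ico (0 : ℤ) n ×ˢ Finset.Ico (0 : ℤ) n).image
        (fun p : ℤ × ℤ => (p.1 - p.2, wrp L o p.1 p.2)), G q.1 q.2 := by
    rw [Finset.sum_image hinj]
  rw [e1]
  refine Finset.sum_le_sum_of_subset_of_nonneg ?_ fun q _ _ => hG _ _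
  intro q hq
  rw [Finset.mem_image] at hq
  obtain ⟨⟨a, b⟩, hab, rfl⟩ := hq
  rw [Finset.mem_product, Finset.mem_Ico, Finset.mem_Ico] at hab
  simp only at hab
  obtain ⟨⟨a1, a2⟩, a3, a4⟩ := hab
  rw [Finset.mem_filter, Finset.mem_product, Finset.mem_Ico, Finset.mem_Ico]
  simp only [wrp]
  split_ifs with hc
  · refine ⟨⟨⟨by omega, by omega⟩, by omega, by omega⟩, ?_⟩
    rw [abs_le, abs_of_nonneg (by omega : 0 ≤ a + b + (o : ℤ))]
    constructor <;> omega
  · refine ⟨⟨⟨by omega, by omega⟩, by omega, by omega⟩, ?_⟩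
    rw [abs_le, abs_of_neg (by omega : a + b + (o : ℤ) - 2 * L < 0)]
    constructor <;> omega

/-- `min ≤ √` -/
theorem le_sqrt_mul {K x t s : ℝ} (hK : 0 ≤ K) (ht : 0 ≤ t) (hs : 0 ≤ s) (h1 : x ≤ K * t)
    (h2 : x ≤ K * s) : x ≤ K * Real.sqrt (t * s) := by
  rcases le_total t s with h | h
  · refine h1.trans (mul_le_mul_of_nonneg_left ?_ hK)
    exact Real.le_sqrt_of_sq_le (by nlinarith)
  · refine h2.trans (mul_le_mul_of_nonneg_left ?_ hK)
    exact Real.le_sqrt_of_sq_le (by nlinarith)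

section main
variable {L : ℕ} {f g : ℤ → ℝ} {t s : ℝ}

/-- third moment -/
theorem mom3 (hf0 : ∀ z, 0 ≤ f z) (hf2 : ∑ z ∈ BB L, (z : ℝ) ^ 2 * f z ≤ 5 * t)
    (hgv : ∀ z : ℤ, |z| ≤ (L : ℤ) → |(z : ℝ)| * g z ≤ 1) :
    ∑ z ∈ BB L, |(z : ℝ)| ^ 3 * (f z * g z) ≤ 5 * t := by
  refine (Finset.sum_le_sum fun z hz => ?_).trans hf2
  rw [Finset.mem_Ico] at hz
  have h1 := hgv z (by rw [abs_le]; constructor <;> omega)
  have h2 : 0 ≤ (z : ℝ) ^ 2 * f z := mul_nonneg (sq_nonneg _) (hf0 z)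
  have e : |(z : ℝ)| ^ 3 = (z : ℝ) ^ 2 * |(z : ℝ)| := by
    rw [← sq_abs (z : ℝ)]; ring
  calc |(z : ℝ)| ^ 3 * (f z * g z) = ((z : ℝ) ^ 2 * f z) * (|(z : ℝ)| * g z) := by rw [e]; ring
    _ ≤ ((z : ℝ) ^ 2 * f z) * 1 := mul_le_mul_of_nonneg_left h1 h2
    _ = _ := mul_one _

theorem sq_le_cube (z : ℤ) : (z : ℝ) ^ 2 ≤ |(z : ℝ)| ^ 3 := by
  by_cases h : z = 0
  · subst h; simp
  · have h1 : (1 : ℝ) ≤ |(z : ℝ)| := by
      have : (1 : ℤ) ≤ |z| := Int.one_le_abs h
      exact_mod_cast this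
    rw [← sq_abs (z : ℝ)]
    exact pow_le_pow_right₀ h1 (by norm_num)

/-- mixed terms, first bound -/
theorem mix1 (hf0 : ∀ z, 0 ≤ f z) (hg0 : ∀ z, 0 ≤ g z)
    (hf2 : ∑ z ∈ BB L, (z : ℝ) ^ 2 * f z ≤ 5 * t) (hg1 : ∑ z ∈ BB L, g z = 1) :
    ∑ v ∈ BB L, ∑ w ∈ BB L, (if |v| ≤ |w| then (v : ℝ) ^ 2 * (f v * g w) else 0) ≤ 5 * t := by
  refine le_trans ?_ hf2
  refine Finset.sum_le_sum fun v _ => ?_
  have h1 : ∑ w ∈ BB L, (if |v| ≤ |w| then (v : ℝ) ^ 2 * (f v * g w) else 0) ≤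
      ∑ w ∈ BB L, (v : ℝ) ^ 2 * f v * g w := by
    refine Finset.sum_le_sum fun w _ => ?_
    have : 0 ≤ (v : ℝ) ^ 2 * f v * g w := mul_nonneg (mul_nonneg (sq_nonneg _) (hf0 v)) (hg0 w)
    split_ifs
    · exact le_of_eq (by ring)
    · exact this
  rw [← Finset.mul_sum, hg1, mul_one] at h1
  exact h1

/-- mixed terms, second bound -/
theorem mix2 (hf0 : ∀ z, 0 ≤ f z) (hg0 : ∀ z, 0 ≤ g z)
    (hg2 : ∑ z ∈ BB L, (z : ℝ) ^ 2 * g z ≤ 5 * s) (hf1 : ∑ z ∈ BB L, f z = 1) :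
    ∑ v ∈ BB L, ∑ w ∈ BB L, (if |v| ≤ |w| then (v : ℝ) ^ 2 * (f v * g w) else 0) ≤ 5 * s := by
  rw [Finset.sum_comm]
  refine le_trans ?_ hg2
  refine Finset.sum_le_sum fun w _ => ?_
  have h1 : ∑ v ∈ BB L, (if |v| ≤ |w| then (v : ℝ) ^ 2 * (f v * g w) else 0) ≤
      ∑ v ∈ BB L, (w : ℝ) ^ 2 * g w * f v := by
    refine Finset.sum_le_sum fun v _ => ?_
    have h0 : 0 ≤ f v * g w := mul_nonneg (hf0 v) (hg0 w)
    split_ifs with h
    · have h2 : (v : ℝ) ^ 2 ≤ (w : ℝ) ^ 2 := by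
        rw [sq_le_sq]
        exact_mod_cast h
      calc (v : ℝ) ^ 2 * (f v * g w) ≤ (w : ℝ) ^ 2 * (f v * g w) :=
            mul_le_mul_of_nonneg_right h2 h0
        _ = _ := by ring
    · exact mul_nonneg (mul_nonneg (sq_nonneg _) (hg0 w)) (hf0 v)
  rw [← Finset.mul_sum, hf1, mul_one] at h1
  exact h1

/-- both in the second argument -/
theorem mix3 (hf0 : ∀ z, 0 ≤ f z) (hg0 : ∀ z, 0 ≤ g z) :
    ∑ v ∈ BB L, ∑ w ∈ BB L, (if |v| ≤ |w| then (v : ℝ) ^ 2 * (f w * g w) else 0) ≤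
      3 * ∑ z ∈ BB L, |(z : ℝ)| ^ 3 * (f z * g z) := by
  rw [Finset.sum_comm, Finset.mul_sum]
  refine Finset.sum_le_sum fun w _ => ?_
  have h0 : 0 ≤ f w * g w := mul_nonneg (hf0 w) (hg0 w)
  have h1 : ∑ v ∈ BB L, (if |v| ≤ |w| then (v : ℝ) ^ 2 * (f w * g w) else 0) ≤
      ∑ v ∈ BB L, (if |v| ≤ |w| then (w : ℝ) ^ 2 * (f w * g w) else 0) := by
    refine Finset.sum_le_sum fun v _ => ?_
    split_ifs with h
    · have h2 : (v : ℝ) ^ 2 ≤ (w : ℝ) ^ 2 := by
        rw [sq_le_sq]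
        exact_mod_cast h
      exact mul_le_mul_of_nonneg_right h2 h0
    · exact le_rfl
  refine h1.trans ?_
  rw [← Finset.sum_filter, Finset.sum_const, nsmul_eq_mul]
  have h2 : ((Finset.filter (fun v => |v| ≤ |w|) (BB L)).card : ℝ) ≤ 2 * |(w : ℝ)| + 1 := by
    have h3 : (Finset.filter (fun v => |v| ≤ |w|) (BB L)) ⊆ Finset.Icc (-|w|) |w| := by
      intro v hv
      rw [Finset.mem_filter] at hv
      rw [Finset.mem_Icc]
      exact abs_le.1 hv.2
    have h4 := Finset.card_le_card h3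
    rw [Int.card_Icc] at h4
    have h5 : (((|w| + 1 - -|w|).toNat : ℕ) : ℤ) = 2 * |w| + 1 := by
      have := abs_nonneg w
      omega
    have h6 : ((Finset.filter (fun v => |v| ≤ |w|) (BB L)).card : ℤ) ≤ 2 * |w| + 1 := by
      rw [← h5]
      exact_mod_cast h4
    have h7 : (((Finset.filter (fun v => |v| ≤ |w|) (BB L)).card : ℤ) : ℝ) ≤
      ((2 * |w| + 1 : ℤ) : ℝ) := Int.cast_le.2 h6
    push_cast at h7
    exact h7
  have h3 : (2 * |(w : ℝ)| + 1) * ((w : ℝ) ^ 2 * (f w * g w)) ≤ 3 * (|(w : ℝ)| ^ 3 * (f w * g w)) := by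
    have h4 := sq_le_cube w
    have h5 : (2 * |(w : ℝ)| + 1) * (w : ℝ) ^ 2 ≤ 3 * |(w : ℝ)| ^ 3 := by
      have e : |(w : ℝ)| ^ 3 = |(w : ℝ)| * (w : ℝ) ^ 2 := by
        rw [← sq_abs (w : ℝ)]; ring
      rw [e] at h4 ⊢
      nlinarith
    calc _ = (2 * |(w : ℝ)| + 1) * (w : ℝ) ^ 2 * (f w * g w) := by ring
      _ ≤ 3 * |(w : ℝ)| ^ 3 * (f w * g w) := mul_le_mul_of_nonneg_right h5 h0
      _ = _ := by ring
  exact (mul_le_mul_of_nonneg_right h2 (mul_nonneg (sq_nonneg _) h0)).trans h3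

/-- the reduction to the symmetric sum -/
theorem core {n o : ℕ} (hno : n + o = L + 1) (ho : 1 ≤ o) (ho2 : o ≤ 2) (σ : ℝ) (hσ : |σ| = 1)
    (ht : 0 ≤ t) (hs : 0 ≤ s)
    (hf0 : ∀ z, 0 ≤ f z) (hg0 : ∀ z, 0 ≤ g z)
    (hf1 : ∑ z ∈ BB L, f z = 1) (hg1 : ∑ z ∈ BB L, g z = 1)
    (hf2 : ∑ z ∈ BB L, (z : ℝ) ^ 2 * f z ≤ 5 * t) (hg2 : ∑ z ∈ BB L, (z : ℝ) ^ 2 * g z ≤ 5 * s)
    (hfv : ∀ z : ℤ, |z| ≤ (L : ℤ) → |(z : ℝ)| * f z ≤ 1)
    (hgv : ∀ z : ℤ, |z| ≤ (L : ℤ) → |(z : ℝ)| * g z ≤ 1)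
    (hfp : ∀ z, f (z - 2 * L) = f z) (hgp : ∀ z, g (z - 2 * L) = g z) :
    |(∑ i : Fin n, ∑ j : Fin n, (((i : ℕ) : ℝ) - ((j : ℕ) : ℝ)) ^ 2 *
      (f ((((i : ℕ) : ℤ)) - ((j : ℕ) : ℤ)) + σ * f (((i : ℕ) : ℤ) + ((j : ℕ) : ℤ) + o)) *
      (g ((((i : ℕ) : ℤ)) - ((j : ℕ) : ℤ)) + σ * g (((i : ℕ) : ℤ) + ((j : ℕ) : ℤ) + o))) -
      L * ∑ z ∈ BB L, (z : ℝ) ^ 2 * (f z * g z)| ≤ 35 * Real.sqrt (t * s) := by
  have hwf : ∀ i j : ℤ, f (i + j + o) = f (wrp L o i j) := by
    intro i j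
    unfold wrp
    split_ifs
    · rfl
    · rw [hfp]
  have hwg : ∀ i j : ℤ, g (i + j + o) = g (wrp L o i j) := by
    intro i j
    unfold wrp
    split_ifs
    · rfl
    · rw [hgp]
  have e1 : (∑ i : Fin n, ∑ j : Fin n, (((i : ℕ) : ℝ) - ((j : ℕ) : ℝ)) ^ 2 *
      (f ((((i : ℕ) : ℤ)) - ((j : ℕ) : ℤ)) + σ * f (((i : ℕ) : ℤ) + ((j : ℕ) : ℤ) + o)) *
      (g ((((i : ℕ) : ℤ)) - ((j : ℕ) : ℤ)) + σ * g (((i : ℕ) : ℤ) + ((j : ℕ) : ℤ) + o))) =
      ∑ i ∈ Finset.Ico (0 : ℤ) n, ∑ j ∈ Finset.Ico (0 : ℤ) n, (((i - j : ℤ)) : ℝ) ^ 2 *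
        (f (i - j) + σ * f (wrp L o i j)) * (g (i - j) + σ * g (wrp L o i j)) := by
    rw [← fin_int (fun i j => (((i - j : ℤ)) : ℝ) ^ 2 *
        (f (i - j) + σ * f (wrp L o i j)) * (g (i - j) + σ * g (wrp L o i j)))]
    refine Finset.sum_congr rfl fun i _ => Finset.sum_congr rfl fun j _ => ?_
    rw [← hwf, ← hwg]
    push_cast
    ring
  rw [e1]
  set H : ℤ → ℝ := fun z => (z : ℝ) ^ 2 * (f z * g z) with hH
  have hH0 : ∀ z, 0 ≤ H z := fun z => mul_nonneg (sq_nonneg _) (mul_nonneg (hf0 z) (hg0 z))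
  have d1 := diff_sum (n := n) (L := L) (by omega) (by omega) H hH0
  have c1 := mom3 hf0 hf2 hgv
  have c2 := mom3 hg0 hg2 hfv
  have c2' : ∑ z ∈ BB L, |(z : ℝ)| ^ 3 * (f z * g z) ≤ 5 * s := by
    refine le_trans (le_of_eq ?_) c2
    exact Finset.sum_congr rfl fun z _ => by ring
  have d2 : ∑ z ∈ BB L, (1 + |(z : ℝ)|) * H z ≤ 2 * ∑ z ∈ BB L, |(z : ℝ)| ^ 3 * (f z * g z) := by
    rw [Finset.mul_sum]
    refine Finset.sum_le_sum fun z _ => ?_
    have h4 := sq_le_cube z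
    have h0 : 0 ≤ f z * g z := mul_nonneg (hf0 z) (hg0 z)
    have h5 : (1 + |(z : ℝ)|) * (z : ℝ) ^ 2 ≤ 2 * |(z : ℝ)| ^ 3 := by
      have e : |(z : ℝ)| ^ 3 = |(z : ℝ)| * (z : ℝ) ^ 2 := by
        rw [← sq_abs (z : ℝ)]; ring
      rw [e] at h4 ⊢
      nlinarith
    calc _ = (1 + |(z : ℝ)|) * (z : ℝ) ^ 2 * (f z * g z) := by simp only [hH]; ring
      _ ≤ 2 * |(z : ℝ)| ^ 3 * (f z * g z) := mul_le_mul_of_nonneg_right h5 h0
      _ = _ := by ring
  have m1 := pair_sum hno ho (fun v w => (v : ℝ) ^ 2 * (f v * g w))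
    (fun v w => mul_nonneg (sq_nonneg _) (mul_nonneg (hf0 v) (hg0 w)))
  have m2 := pair_sum hno ho (fun v w => (v : ℝ) ^ 2 * (g v * f w))
    (fun v w => mul_nonneg (sq_nonneg _) (mul_nonneg (hg0 v) (hf0 w)))
  have m3 := pair_sum hno ho (fun v w => (v : ℝ) ^ 2 * (f w * g w))
    (fun v w => mul_nonneg (sq_nonneg _) (mul_nonneg (hf0 w) (hg0 w)))
  have n1a := mix1 hf0 hg0 hf2 hg1
  have n1b := mix2 hf0 hg0 hg2 hf1
  have n2a := mix1 hg0 hf0 hg2 hf1
  have n2b := mix2 hg0 hf0 hf2 hg1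
  have n3 := mix3 (L := L) hf0 hg0
  have key : |(∑ i ∈ Finset.Ico (0 : ℤ) n, ∑ j ∈ Finset.Ico (0 : ℤ) n, (((i - j : ℤ)) : ℝ) ^ 2 *
        (f (i - j) + σ * f (wrp L o i j)) * (g (i - j) + σ * g (wrp L o i j))) -
      ∑ i ∈ Finset.Ico (0 : ℤ) n, ∑ j ∈ Finset.Ico (0 : ℤ) n, H (i - j)| ≤
      (∑ i ∈ Finset.Ico (0 : ℤ) n, ∑ j ∈ Finset.Ico (0 : ℤ) n,
        (((i - j : ℤ)) : ℝ) ^ 2 * (f (i - j) * g (wrp L o i j))) +
      (∑ i ∈ Finset.Ico (0 : ℤ) n, ∑ j ∈ Finset.Ico (0 : ℤ) n,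
        (((i - j : ℤ)) : ℝ) ^ 2 * (g (i - j) * f (wrp L o i j))) +
      (∑ i ∈ Finset.Ico (0 : ℤ) n, ∑ j ∈ Finset.Ico (0 : ℤ) n,
        (((i - j : ℤ)) : ℝ) ^ 2 * (f (wrp L o i j) * g (wrp L o i j))) := by
    simp_rw [← Finset.sum_add_distrib, ← Finset.sum_sub_distrib]
    refine (Finset.abs_sum_le_sum_abs _ _).trans (Finset.sum_le_sum fun i _ => ?_)
    refine (Finset.abs_sum_le_sum_abs _ _).trans (Finset.sum_le_sum fun j _ => ?_)
    set v := i - j
    set w := wrp L o i j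
    have e2 : ((v : ℝ)) ^ 2 * (f v + σ * f w) * (g v + σ * g w) - H v =
        (v : ℝ) ^ 2 * (σ * (f v * g w) + σ * (g v * f w) + σ ^ 2 * (f w * g w)) := by
      simp only [hH]; ring
    rw [e2, abs_mul, abs_of_nonneg (sq_nonneg (v : ℝ))]
    have e3 : |σ * (f v * g w) + σ * (g v * f w) + σ ^ 2 * (f w * g w)| ≤
        f v * g w + g v * f w + f w * g w := by
      have a1 : |σ * (f v * g w)| = f v * g w := by
        rw [abs_mul, hσ, one_mul, abs_of_nonneg (mul_nonneg (hf0 v) (hg0 w))]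
      have a2 : |σ * (g v * f w)| = g v * f w := by
        rw [abs_mul, hσ, one_mul, abs_of_nonneg (mul_nonneg (hg0 v) (hf0 w))]
      have a3 : |σ ^ 2 * (f w * g w)| = f w * g w := by
        rw [abs_mul, abs_pow, hσ, one_pow, one_mul, abs_of_nonneg (mul_nonneg (hf0 w) (hg0 w))]
      refine (abs_add_le _ _).trans ?_
      rw [a3]
      have := abs_add_le (σ * (f v * g w)) (σ * (g v * f w))
      rw [a1, a2] at this
      linarith
    have := mul_le_mul_of_nonneg_left e3 (sq_nonneg (v : ℝ))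
    linarith
  have tot : ∀ a b c : ℝ, |a - c| ≤ |a - b| + |b - c| := fun a b c => abs_sub_le a b c
  refine (tot _ (∑ i ∈ Finset.Ico (0 : ℤ) n, ∑ j ∈ Finset.Ico (0 : ℤ) n, H (i - j)) _).trans ?_
  refine le_sqrt_mul (by norm_num) ht hs ?_ ?_
  · linarith
  · linarith

end main


theorem rr_per {L : ℕ} (hL : 2 ≤ L) (t : ℝ) (z : ℤ) : rr L t (z - 2 * L) = rr L t z := by
  have hL' : (L : ℝ) ≠ 0 := by positivity
  unfold rr
  congr 1
  refine Finset.sum_congr rfl fun n _ => ?_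
  congr 1
  have e : Real.pi * n / L * ((z - 2 * (L : ℤ) : ℤ) : ℝ) =
      Real.pi * n / L * z - (n : ℤ) * (2 * Real.pi) := by
    push_cast
    field_simp
  rw [e, Real.cos_sub_int_mul_two_pi]

theorem quart (x : ℝ) : |x ^ 2 - (2 - 2 * Real.cos x)| ≤ x ^ 4 := by
  rcases le_or_gt |x| 1 with h | h
  · have h1 := Real.cos_bound h
    have e : x ^ 2 - (2 - 2 * Real.cos x) = 2 * (Real.cos x - (1 - x ^ 2 / 2)) := by ring
    rw [e, abs_mul, abs_two]
    have e2 : |x| ^ 4 = x ^ 4 := by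
      have : |x| ^ 4 = (|x| ^ 2) ^ 2 := by ring
      rw [this, sq_abs]; ring
    rw [e2] at h1
    have h4 : 0 ≤ x ^ 4 := by positivity
    linarith
  · have h1 := Real.one_sub_sq_div_two_le_cos (x := x)
    have h2 := Real.cos_le_one x
    have h3 : 1 ≤ x ^ 2 := by
      rw [← sq_abs]
      nlinarith
    rw [abs_le]
    constructor
    · nlinarith
    · nlinarith

theorem gam {L : ℕ} (hL : 2 ≤ L) (z : ℤ) (hz : |z| ≤ (L : ℤ)) :
    L * |(z : ℝ) ^ 2 - (L : ℝ) ^ 2 / Real.pi ^ 2 * (2 - 2 * Real.cos (Real.pi * z / L))| ≤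
      10 * |(z : ℝ)| ^ 3 := by
  have hpi := Real.pi_pos
  have hL' : (0 : ℝ) < L := by positivity
  have e : (z : ℝ) ^ 2 - (L : ℝ) ^ 2 / Real.pi ^ 2 * (2 - 2 * Real.cos (Real.pi * z / L)) =
      (L : ℝ) ^ 2 / Real.pi ^ 2 * ((Real.pi * z / L) ^ 2 - (2 - 2 * Real.cos (Real.pi * z / L))) := by
    rw [mul_sub]
    field_simp
  rw [e, abs_mul, abs_of_pos (by positivity : 0 < (L : ℝ) ^ 2 / Real.pi ^ 2)]
  have h1 := quart (Real.pi * z / L)
  have h2 : (L : ℝ) * ((L : ℝ) ^ 2 / Real.pi ^ 2 * (Real.pi * z / L) ^ 4) =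
      Real.pi ^ 2 * (|(z : ℝ)| ^ 3 * (|(z : ℝ)| / L)) := by
    have e4 : (z : ℝ) ^ 4 = |(z : ℝ)| ^ 3 * |(z : ℝ)| := by
      have : |(z : ℝ)| ^ 3 * |(z : ℝ)| = (|(z : ℝ)| ^ 2) ^ 2 := by ring
      rw [this, sq_abs]; ring
    have e5 : (Real.pi * z / L) ^ 4 = Real.pi ^ 4 * (z : ℝ) ^ 4 / L ^ 4 := by
      rw [div_pow, mul_pow]
    rw [e5, e4]
    field_simp
  have h3 : |(z : ℝ)| / L ≤ 1 := by
    rw [div_le_one hL']
    exact_mod_cast hz
  have h4 : Real.pi ^ 2 ≤ 10 := by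
    have := Real.pi_lt_d2
    nlinarith [Real.pi_gt_three]
  have h5 : |(z : ℝ)| ^ 3 * (|(z : ℝ)| / L) ≤ |(z : ℝ)| ^ 3 * 1 :=
    mul_le_mul_of_nonneg_left h3 (by positivity)
  calc _ ≤ (L : ℝ) * ((L : ℝ) ^ 2 / Real.pi ^ 2 * (Real.pi * z / L) ^ 4) := by
        refine mul_le_mul_of_nonneg_left (mul_le_mul_of_nonneg_left h1 (by positivity)) hL'.le
    _ = Real.pi ^ 2 * (|(z : ℝ)| ^ 3 * (|(z : ℝ)| / L)) := h2
    _ ≤ 10 * (|(z : ℝ)| ^ 3 * 1) := mul_le_mul h4 h5 (by positivity) (by norm_num)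
    _ = _ := by ring

theorem mainRR (hP : S_P) (hV : ∀ (L : ℕ), 2 ≤ L → ∀ t : ℝ, 0 ≤ t → ∀ z : ℤ, |z| ≤ (L : ℤ) →
    |(z : ℝ)| * rr L t z ≤ 1) {L : ℕ} (hL : 2 ≤ L) {t s : ℝ} (ht : 0 ≤ t) (hs : 0 ≤ s) :
    |(L : ℝ) * (∑ z ∈ BB L, (z : ℝ) ^ 2 * (rr L t z * rr L s z)) - L * (t * s * ww (t + s))| ≤
      6450 * Real.sqrt (t * s) := by
  have hpi := Real.pi_pos
  have hL' : (0 : ℝ) < L := by positivity
  obtain ⟨p0, p1, p2⟩ := hP L hL t ht
  obtain ⟨q0, q1, q2⟩ := hP L hL s hs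
  have c1 := mom3 (L := L) (t := t) (fun z => (p0 z).1) p2 (hV L hL s hs)
  have c2 := mom3 (L := L) (t := s) (fun z => (q0 z).1) q2 (hV L hL t ht)
  have c2' : ∑ z ∈ BB L, |(z : ℝ)| ^ 3 * (rr L t z * rr L s z) ≤ 5 * s := by
    refine le_trans (le_of_eq ?_) c2
    exact Finset.sum_congr rfl fun z _ => by ring
  have c3 : ∑ z ∈ BB L, |(z : ℝ)| ^ 3 * (rr L t z * rr L s z) ≤ 5 * Real.sqrt (t * s) :=
    le_sqrt_mul (by norm_num) ht hs c1 c2'
  set Q : ℝ := ∑ z ∈ BB L, (L : ℝ) ^ 2 / Real.pi ^ 2 * (2 - 2 * Real.cos (Real.pi * z / L)) *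
    (rr L t z * rr L s z) with hQ
  have s1 : |(L : ℝ) * (∑ z ∈ BB L, (z : ℝ) ^ 2 * (rr L t z * rr L s z)) - L * Q| ≤
      50 * Real.sqrt (t * s) := by
    have e : (L : ℝ) * (∑ z ∈ BB L, (z : ℝ) ^ 2 * (rr L t z * rr L s z)) - L * Q =
        ∑ z ∈ BB L, L * (((z : ℝ) ^ 2 - (L : ℝ) ^ 2 / Real.pi ^ 2 *
          (2 - 2 * Real.cos (Real.pi * z / L))) * (rr L t z * rr L s z)) := by
      rw [hQ, ← mul_sub, ← Finset.sum_sub_distrib, Finset.mul_sum]
      refine Finset.sum_congr rfl fun z _ => ?_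
      ring
    rw [e]
    refine (Finset.abs_sum_le_sum_abs _ _).trans ?_
    have h2 : ∑ z ∈ BB L, |(L : ℝ) * (((z : ℝ) ^ 2 - (L : ℝ) ^ 2 / Real.pi ^ 2 *
          (2 - 2 * Real.cos (Real.pi * z / L))) * (rr L t z * rr L s z))| ≤
        ∑ z ∈ BB L, 10 * (|(z : ℝ)| ^ 3 * (rr L t z * rr L s z)) := by
      refine Finset.sum_le_sum fun z hz => ?_
      rw [Finset.mem_Ico] at hz
      have h3 := gam hL z (by rw [abs_le]; constructor <;> omega)
      have h0 : 0 ≤ rr L t z * rr L s z := mul_nonneg (p0 z).1 (q0 z).1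
      rw [abs_mul, abs_mul, abs_of_pos hL', abs_of_nonneg h0]
      have h5 := mul_le_mul_of_nonneg_right h3 h0
      linarith
    refine h2.trans ?_
    rw [← Finset.mul_sum]
    linarith
  have s2 : |(L : ℝ) * Q - L * (t * s * ww (t + s))| ≤ 6400 * Real.sqrt (t * s) := by
    have e1 : (L : ℝ) * Q = (L : ℝ) ^ 2 / Real.pi ^ 2 * ∑ n ∈ Finset.range L,
        (rho L t n - rho L t (n + 1)) * (rho L s n - rho L s (n + 1)) := by
      have h := parsRR hL t s
      have e2 : Q = (L : ℝ) ^ 2 / Real.pi ^ 2 * ∑ z ∈ Finset.Ico (-(L : ℤ)) L,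
          (2 - 2 * Real.cos (Real.pi * z / L)) * (rr L t z * rr L s z) := by
        rw [hQ, Finset.mul_sum]
        refine Finset.sum_congr rfl fun z _ => ?_
        ring
      rw [e2, h]
      field_simp
    have e3 : (L : ℝ) * (t * s * ww (t + s)) = (L : ℝ) ^ 2 / Real.pi ^ 2 *
        (Real.pi / L * ∫ x in (0 : ℝ)..Real.pi, Fd t x * Fd s x) := by
      rw [intww]
      field_simp
    have h := cells hL ht hs
    rw [e1, e3, ← mul_sub, abs_mul, abs_of_pos (by positivity : 0 < (L : ℝ) ^ 2 / Real.pi ^ 2)]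
    have h2 : (L : ℝ) ^ 2 / Real.pi ^ 2 * ((Real.pi / L) ^ 2 * (6400 * (Real.sqrt t * Real.sqrt s))) =
        6400 * Real.sqrt (t * s) := by
      rw [Real.sqrt_mul ht]
      field_simp
    rw [← h2]
    exact mul_le_mul_of_nonneg_left h (by positivity)
  have := abs_sub_le ((L : ℝ) * (∑ z ∈ BB L, (z : ℝ) ^ 2 * (rr L t z * rr L s z))) (L * Q)
    (L * (t * s * ww (t + s)))
  linarith

theorem ta (hR : S_R) (hP : S_P) (hV : S_V) : S_A := by
  obtain ⟨C0, hC0⟩ := hV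
  have hV1 : ∀ (L : ℕ), 2 ≤ L → ∀ t : ℝ, 0 ≤ t → ∀ z : ℤ, |z| ≤ (L : ℤ) →
    |(z : ℝ)| * rr L t z ≤ 1 := fun L hL t ht z hz => (hC0 L hL t ht z hz).1
  refine ⟨6485, by norm_num, ?_⟩
  intro L hL t s ht hs
  have hm := mainRR hP hV1 hL ht hs
  obtain ⟨p0, p1, p2⟩ := hP L hL t ht
  obtain ⟨q0, q1, q2⟩ := hP L hL s hs
  refine ⟨?_, ?_, ?_, ?_⟩
  · have hc := core (L := L) (f := rr L t) (g := rr L s) (t := t) (s := s) (n := L - 1) (o := 2)
      (by omega) (by omega) le_rfl (-1) (by norm_num) ht hs (fun z => (p0 z).1)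
      (fun z => (q0 z).1) p1 q1 p2 q2 (hV1 L hL t ht) (hV1 L hL s hs)
      (rr_per hL t) (rr_per hL s)
    have e : aa (lDD L) t s = ∑ i : Fin (L - 1), ∑ j : Fin (L - 1),
        (((i : ℕ) : ℝ) - ((j : ℕ) : ℝ)) ^ 2 *
        (rr L t ((((i : ℕ) : ℤ)) - ((j : ℕ) : ℤ)) + (-1) *
          rr L t (((i : ℕ) : ℤ) + ((j : ℕ) : ℤ) + (2 : ℕ))) *
        (rr L s ((((i : ℕ) : ℤ)) - ((j : ℕ) : ℤ)) + (-1) *
          rr L s (((i : ℕ) : ℤ) + ((j : ℕ) : ℤ) + (2 : ℕ))) := by
      unfold aa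
      refine Finset.sum_congr rfl fun i _ => Finset.sum_congr rfl fun j _ => ?_
      rw [(hR L hL t).1 i j, (hR L hL s).1 i j]
      push_cast
      ring
    rw [← e] at hc
    have := abs_sub_le (aa (lDD L) t s) ((L : ℝ) * (∑ z ∈ BB L, (z : ℝ) ^ 2 * (rr L t z * rr L s z)))
      (L * (t * s * ww (t + s)))
    linarith
  · have hc := core (L := L) (f := rr L t) (g := rr L s) (t := t) (s := s) (n := L) (o := 1)
      rfl le_rfl (by norm_num) 1 (by norm_num) ht hs (fun z => (p0 z).1)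
      (fun z => (q0 z).1) p1 q1 p2 q2 (hV1 L hL t ht) (hV1 L hL s hs)
      (rr_per hL t) (rr_per hL s)
    have e : aa (lNN L) t s = ∑ i : Fin L, ∑ j : Fin L,
        (((i : ℕ) : ℝ) - ((j : ℕ) : ℝ)) ^ 2 *
        (rr L t ((((i : ℕ) : ℤ)) - ((j : ℕ) : ℤ)) + 1 *
          rr L t (((i : ℕ) : ℤ) + ((j : ℕ) : ℤ) + (1 : ℕ))) *
        (rr L s ((((i : ℕ) : ℤ)) - ((j : ℕ) : ℤ)) + 1 *
          rr L s (((i : ℕ) : ℤ) + ((j : ℕ) : ℤ) + (1 : ℕ))) := by
      unfold aa
      refine Finset.sum_congr rfl fun i _ => Finset.sum_congr rfl fun j _ => ?_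
      rw [(hR L hL t).2 i j, (hR L hL s).2 i j]
      push_cast
      ring
    rw [← e] at hc
    have := abs_sub_le (aa (lNN L) t s) ((L : ℝ) * (∑ z ∈ BB L, (z : ℝ) ^ 2 * (rr L t z * rr L s z)))
      (L * (t * s * ww (t + s)))
    linarith
  · exact aa_bounds (by omega) (lDD L) (lDD_symm L) 2 (lDD_le L) ht hs
  · exact aa_bounds le_rfl (lNN L) (lNN_symm L) 2 (lNN_le L) ht hs

end Pool.Agent.H364.AF
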